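import Mathlib
import Pool.Agent.H350R3.MG.Quot

/-!
# Apolarity: forms killed by `D_v ^ e` and powers of the ideal of the point `v` of the plane
-/

set_option autoImplicit false
set_option linter.unusedSectionVars false

namespace Pool.Agent.TH434.FR

open MvPolynomial H350MG

noncomputable section

variable {K : Type} [Field K] [CharZero K]

/-- the translation `X 0 ↦ X 0 + p X 2`, `X 1 ↦ X 1 + q X 2` -/
def tr (p q : K) : MvPolynomial (Fin 3) K →ₐ[K] MvPolynomial (Fin 3) K :=
  aeval ![X 0 + C p * X 2, X 1 + C q * X 2, X 2]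

lemma tr_X0 (p q : K) : tr p q (X 0) = X 0 + C p * X 2 := by simp [tr]
lemma tr_X1 (p q : K) : tr p q (X 1) = X 1 + C q * X 2 := by simp [tr]
lemma tr_X2 (p q : K) : tr p q (X 2) = X 2 := by simp [tr]

lemma tr_neg (p q : K) (F : MvPolynomial (Fin 3) K) : tr (-p) (-q) (tr p q F) = F := by
  have h : (tr (-p) (-q)).comp (tr p q) = AlgHom.id K _ := by
    apply MvPolynomial.algHom_ext
    intro i
    fin_cases i
    · change tr (-p) (-q) (tr p q (X 0)) = X 0
      rw [tr_X0, map_add, map_mul, tr_X0, tr_X2, algHom_C, algebraMap_eq, C_neg]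
      ring
    · change tr (-p) (-q) (tr p q (X 1)) = X 1
      rw [tr_X1, map_add, map_mul, tr_X1, tr_X2, algHom_C, algebraMap_eq, C_neg]
      ring
    · change tr (-p) (-q) (tr p q (X 2)) = X 2
      rw [tr_X2, tr_X2]
  exact congrArg (fun T : MvPolynomial (Fin 3) K →ₐ[K] MvPolynomial (Fin 3) K => T F) h

/-- the vector of the point -/
def pv (p q : K) : Fin 3 → K := ![p, q, 1]

lemma pderiv_tr (p q : K) (F : MvPolynomial (Fin 3) K) :
    pderiv 2 (tr p q F) = tr p q (H350MG.D (pv p q) F) := by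
  have hD : ∀ G : MvPolynomial (Fin 3) K, H350MG.D (pv p q) G =
      p • pderiv 0 G + q • pderiv 1 G + pderiv 2 G := by
    intro G
    change dirD (pv p q) G = _
    rw [dirD_apply, Fin.sum_univ_three]
    simp [pv]
  induction F using MvPolynomial.induction_on with
  | C a =>
    rw [hD, algHom_C, algebraMap_eq]
    simp
  | add F G hF hG => rw [map_add, map_add, map_add, map_add, hF, hG]
  | mul_X F i hF =>
    have h1 : tr p q (H350MG.D (pv p q) (F * X i)) =
        tr p q (H350MG.D (pv p q) F) * tr p q (X i) + tr p q F * C (pv p q i) := by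
      rw [← map_mul, ← algebraMap_eq, ← algHom_C (tr p q), ← map_mul, ← map_add]
      congr 1
      rw [hD, hD]
      simp only [pderiv_mul, pderiv_X]
      fin_cases i <;> simp [pv, Algebra.smul_def, algebraMap_eq] <;> ring
    rw [h1, map_mul, pderiv_mul, hF]
    congr 2
    fin_cases i
    · change pderiv 2 (tr p q (X 0)) = C (pv p q 0)
      rw [tr_X0, map_add, pderiv_mul, pderiv_C, pderiv_X_self, pderiv_X_of_ne (by decide)]
      simp [pv]
    · change pderiv 2 (tr p q (X 1)) = C (pv p q 1)
      rw [tr_X1, map_add, pderiv_mul, pderiv_C, pderiv_X_self, pderiv_X_of_ne (by decide)]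
      simp [pv]
    · change pderiv 2 (tr p q (X 2)) = C (pv p q 2)
      rw [tr_X2, pderiv_X_self]
      simp [pv]

lemma pderiv_tr_pow (p q : K) (e : ℕ) : ∀ F : MvPolynomial (Fin 3) K,
    (pderiv 2)^[e] (tr p q F) = tr p q ((H350MG.D (pv p q) ^ e) F) := by
  induction e with
  | zero => intro F; simp
  | succ e ih =>
    intro F
    rw [Function.iterate_succ_apply, pderiv_tr, ih, pow_succ, Module.End.mul_apply]

lemma coeff_zero_of_iter (e : ℕ) : ∀ G : MvPolynomial (Fin 3) K, (pderiv 2)^[e] G = 0 →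
    ∀ s : Fin 3 →₀ ℕ, e ≤ s 2 → coeff s G = 0 := by
  induction e with
  | zero => intro G hG s _; rw [Function.iterate_zero, id] at hG; rw [hG, coeff_zero]
  | succ e ih =>
    intro G hG s hs
    rw [Function.iterate_succ_apply] at hG
    have h1 := ih _ hG (s - Finsupp.single 2 1) (by
      rw [Finsupp.tsub_apply, Finsupp.single_eq_same]; omega)
    rw [coeff_pderiv] at h1
    have h2 : s - Finsupp.single 2 1 + Finsupp.single 2 1 = s := by
      ext x
      simp only [Finsupp.add_apply, Finsupp.tsub_apply]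
      by_cases hx : x = 2
      · subst hx; rw [Finsupp.single_eq_same]; omega
      · rw [Finsupp.single_eq_of_ne hx]; omega
    rw [h2] at h1
    rcases mul_eq_zero.1 h1 with h | h
    · exact h
    · exact absurd h (Nat.cast_add_one_ne_zero _)

/-- a form of degree `j` killed by `D_v ^ e` vanishes to order `j + 1 - e` at the point -/
theorem mem_pow_of_D {p q : K} {j e : ℕ} {F : MvPolynomial (Fin 3) K} (hF : F.IsHomogeneous j)
    (h : (H350MG.D (pv p q) ^ e) F = 0) :
    F ∈ (Ideal.span ({X 0 - C p * X 2, X 1 - C q * X 2} : Set (MvPolynomial (Fin 3) K))) ^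
      (j + 1 - e) := by
  obtain ⟨I, hI⟩ : ∃ I : Ideal (MvPolynomial (Fin 3) K),
      I = Ideal.span ({X 0 - C p * X 2, X 1 - C q * X 2} : Set (MvPolynomial (Fin 3) K)) :=
    ⟨_, rfl⟩
  rw [← hI]
  obtain ⟨G, hG⟩ : ∃ G, G = tr p q F := ⟨_, rfl⟩
  have hGF : F = tr (-p) (-q) G := by rw [hG, tr_neg]
  have hGh : G.IsHomogeneous j := by
    rw [hG]
    have h1 := hF.aeval (fun i : Fin 3 => (![X 0 + C p * X 2, X 1 + C q * X 2, X 2] :
      Fin 3 → MvPolynomial (Fin 3) K) i) (n := 1) (by
        intro i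
        fin_cases i
        · refine (isHomogeneous_X _ _).add ?_
          exact (isHomogeneous_C _ _).mul (isHomogeneous_X _ _)
        · refine (isHomogeneous_X _ _).add ?_
          exact (isHomogeneous_C _ _).mul (isHomogeneous_X _ _)
        · exact isHomogeneous_X _ _)
    rw [one_mul] at h1
    exact h1
  have hG0 : (pderiv 2)^[e] G = 0 := by rw [hG, pderiv_tr_pow, h, map_zero]
  have hX0 : tr (-p) (-q) (X 0) ∈ I := by
    rw [tr_X0, hI]
    refine Ideal.subset_span ?_
    rw [C_neg]
    left; ring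
  have hX1 : tr (-p) (-q) (X 1) ∈ I := by
    rw [tr_X1, hI]
    refine Ideal.subset_span ?_
    rw [C_neg]
    right; rw [Set.mem_singleton_iff]; ring
  rw [hGF, G.as_sum, map_sum]
  refine Ideal.sum_mem _ fun s hs => ?_
  have hc : coeff s G ≠ 0 := mem_support_iff.1 hs
  have hdeg : s 0 + s 1 + s 2 = j := by
    have h1 := hGh hc
    rw [Finsupp.weight_apply, Finsupp.sum_fintype _ _ (by simp), Fin.sum_univ_three] at h1
    simpa using h1
  have hlt : s 2 < e := by
    by_contra h2
    exact hc (coeff_zero_of_iter e G hG0 s (by omega))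
  have h3 : (monomial s (coeff s G) : MvPolynomial (Fin 3) K) =
      C (coeff s G) * (X 0 ^ s 0 * X 1 ^ s 1 * X 2 ^ s 2) := by
    rw [monomial_eq, Finsupp.prod_fintype _ _ (by simp), Fin.prod_univ_three]
  rw [h3, map_mul, map_mul, map_mul, map_pow, map_pow]
  refine Ideal.mul_mem_left _ _ (Ideal.mul_mem_right _ _ ?_)
  have h4 := Ideal.mul_mem_mul (Ideal.pow_mem_pow hX0 (s 0)) (Ideal.pow_mem_pow hX1 (s 1))
  rw [← pow_add] at h4
  exact Ideal.pow_le_pow_right (by omega) h4

end

end Pool.Agent.TH434.FR
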