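import Mathlib
import Pool.Agent.TH434.FR.Apo
import Pool.Agent.TH130.FP.FinalA
import Pool.Agent.H932R3.Finals

/-!
# Powers of generic forms in three variables: the Hilbert function from fat points of the plane
-/

set_option autoImplicit false
set_option maxHeartbeats 1000000

namespace Pool.Agent.TH434.FR

open MvPolynomial H350MG Pool.Agent.H932R3

noncomputable section

variable {𝕜 : Type} [Field 𝕜] [CharZero 𝕜]

/-- the points with third coordinate one -/
def pt3 {s : ℕ} (P : Fin s → Fin 2 → 𝕜) : Fin s × Fin 3 → 𝕜 :=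
  fun x => pv (P x.1 0) (P x.1 1) x.2

lemma mem_fat {s a j : ℕ} (P : Fin s → Fin 2 → 𝕜) {F : MvPolynomial (Fin 3) 𝕜}
    (hF : F ∈ H350MG.K (ptList (fun _ : Fin s => a) (pt3 P)) j) (i : Fin s) :
    F ∈ (Ideal.span
            ({MvPolynomial.X 0 - MvPolynomial.C (P i 0) * MvPolynomial.X 2,
              MvPolynomial.X 1 - MvPolynomial.C (P i 1) * MvPolynomial.X 2} :
              Set (MvPolynomial (Fin 3) 𝕜))) ^ (j + 1 - a) := by
  rw [mem_K] at hF
  have h1 : F.IsHomogeneous j := hF.1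
  have h2 := hF.2 _ (mem_ptList (e := fun _ : Fin s => a) (pt3 P) i)
  have h3 : (H350MG.D (pv (P i 0) (P i 1)) ^ a) F = 0 := h2
  exact mem_pow_of_D h1 h3

lemma K_le_fat {s a j : ℕ} (P : Fin s → Fin 2 → 𝕜) :
    H350MG.K (ptList (fun _ : Fin s => a) (pt3 P)) j ≤
      MvPolynomial.homogeneousSubmodule (Fin 3) 𝕜 j ⊓
      Submodule.restrictScalars 𝕜
        (⨅ i : Fin s,
          (Ideal.span
            ({MvPolynomial.X 0 - MvPolynomial.C (P i 0) * MvPolynomial.X 2,
              MvPolynomial.X 1 - MvPolynomial.C (P i 1) * MvPolynomial.X 2} :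
              Set (MvPolynomial (Fin 3) 𝕜))) ^ (j + 1 - a)) := by
  intro F hF
  have h1 := mem_fat P hF
  have h2 : F ∈ MvPolynomial.homogeneousSubmodule (Fin 3) 𝕜 j := K_le _ j hF
  refine Submodule.mem_inf.2 ⟨h2, ?_⟩
  rw [Submodule.restrictScalars_mem, Ideal.mem_iInf]
  exact h1

lemma finrank_fat {s a j : ℕ} (haj : a ≤ j) {P : Fin s → Fin 2 → 𝕜}
    (h : ExpDim 𝕜 (fun _ : Fin s => j + 1 - a) P j) :
    Module.finrank 𝕜 (H350MG.K (ptList (fun _ : Fin s => a) (pt3 P)) j) ≤
      (j + 2).choose 2 - s * (j + 2 - a).choose 2 := by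
  unfold ExpDim at h
  have hfinH : Module.Finite 𝕜 ↥(MvPolynomial.homogeneousSubmodule (Fin 3) 𝕜 j) :=
    Module.Finite.iff_fg.2 (MvPolynomial.homogeneousSubmodule_fg _ _ j)
  have hfin := Submodule.finiteDimensional_of_le
      (S₁ := MvPolynomial.homogeneousSubmodule (Fin 3) 𝕜 j ⊓
      Submodule.restrictScalars 𝕜
        (⨅ i : Fin s,
          (Ideal.span
            ({MvPolynomial.X 0 - MvPolynomial.C (P i 0) * MvPolynomial.X 2,
              MvPolynomial.X 1 - MvPolynomial.C (P i 1) * MvPolynomial.X 2} :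
              Set (MvPolynomial (Fin 3) 𝕜))) ^ (j + 1 - a)))
      (S₂ := MvPolynomial.homogeneousSubmodule (Fin 3) 𝕜 j) inf_le_left
  have h1 := Submodule.finrank_mono (K_le_fat (a := a) (j := j) P)
  rw [h, Finset.sum_const, Finset.card_univ, Fintype.card_fin, smul_eq_mul] at h1
  have h2 : j + 1 - a + 1 = j + 2 - a := by omega
  rwa [h2] at h1

lemma finrank_R3 (j : ℕ) : Module.finrank 𝕜 (Rj 𝕜 (Fin 3) j) = (j + 2).choose 2 := by
  rw [finrank_Rj, Fintype.card_fin]
  have h : 3 + j - 1 = j + 2 := by omega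
  rw [h]
  exact Nat.choose_symm_of_eq_add (by omega)

lemma finrank_Jt_le {a j : ℕ} (c : MvPolynomial (Fin 3) 𝕜 × ℕ) (hc : c.2 = a) :
    Module.finrank 𝕜 (Jt c j) ≤ (j + 2 - a).choose 2 := by
  by_cases h : c.2 ≤ j
  · have e : Jt c j = (Rj 𝕜 (Fin 3) (j - c.2)).map (LinearMap.mulLeft 𝕜 c.1) := if_pos h
    rw [e]
    refine (Submodule.finrank_map_le _ _).trans ?_
    rw [finrank_R3, hc]
    have : j - a + 2 = j + 2 - a := by omega
    rw [this]
  · have e : Jt c j = ⊥ := if_neg h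
    rw [e, finrank_bot]
    exact Nat.zero_le _

lemma finrank_J_le {a j : ℕ} : ∀ l : List (MvPolynomial (Fin 3) 𝕜 × ℕ),
    (∀ c ∈ l, c.1 ∈ Rj 𝕜 (Fin 3) c.2 ∧ c.2 = a) →
    Module.finrank 𝕜 (J l j) ≤ l.length * (j + 2 - a).choose 2 := by
  intro l
  induction l with
  | nil =>
    intro _
    rw [J, finrank_bot]
    exact Nat.zero_le _
  | cons c l ih =>
    intro h
    have hl : ∀ c' ∈ l, c'.1 ∈ Rj 𝕜 (Fin 3) c'.2 ∧ c'.2 = a :=
      fun c' hc' => h c' (List.mem_cons_of_mem _ hc')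
    have hc := h c (List.mem_cons_self ..)
    have i1 : FiniteDimensional 𝕜 (J l j) :=
      Submodule.finiteDimensional_of_le (J_le (fun c' hc' => (hl c' hc').1) j)
    have i2 : FiniteDimensional 𝕜 (Jt c j) := Submodule.finiteDimensional_of_le (Jt_le hc.1 j)
    have h1 := Submodule.finrank_add_le_finrank_add_finrank (J l j) (Jt c j)
    have h2 := finrank_Jt_le (j := j) c hc.2
    have h3 := ih hl
    rw [J, List.length_cons, Nat.succ_mul]
    omega

/-- if the ideal contains all forms of degree `j` it contains all forms of degree `j + 1` -/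
lemma J_full_succ {j : ℕ} (l : List (MvPolynomial (Fin 3) 𝕜 × ℕ)) (h : Rj 𝕜 (Fin 3) j ≤ J l j) :
    Rj 𝕜 (Fin 3) (j + 1) ≤ J l (j + 1) := by
  intro F hF
  rw [F.as_sum]
  refine Submodule.sum_mem _ fun m hm => ?_
  have hc : coeff m F ≠ 0 := mem_support_iff.1 hm
  have hF' : F.IsHomogeneous (j + 1) := hF
  have hdeg : m 0 + m 1 + m 2 = j + 1 := by
    have h1 := hF' hc
    rw [Finsupp.weight_apply, Finsupp.sum_fintype _ _ (by simp), Fin.sum_univ_three] at h1
    simpa using h1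
  obtain ⟨i, hi⟩ : ∃ i, m i ≠ 0 := by
    by_contra hcon
    push Not at hcon
    have c0 := hcon 0
    have c1 := hcon 1
    have c2 := hcon 2
    omega
  have h2 : m = Finsupp.single i 1 + (m - Finsupp.single i 1) := by
    ext x
    simp only [Finsupp.add_apply, Finsupp.tsub_apply]
    by_cases hx : x = i
    · subst hx; rw [Finsupp.single_eq_same]; omega
    · rw [Finsupp.single_eq_of_ne hx]; omega
  have h3 : (m - Finsupp.single i 1).degree = j := by
    have h4 := congrArg Finsupp.degree h2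
    have h5 : m.degree = j + 1 := by
      rw [Finsupp.degree_eq_sum, Fin.sum_univ_three]
      exact hdeg
    rw [map_add, Finsupp.degree_single] at h4
    omega
  have h4 : (monomial m (coeff m F) : MvPolynomial (Fin 3) 𝕜) =
      X i * monomial (m - Finsupp.single i 1) (coeff m F) := by
    rw [X, monomial_mul, one_mul, ← h2]
  rw [h4]
  refine mul_J (isHomogeneous_X _ _) l (h ?_)
  exact isHomogeneous_monomial _ h3

lemma choose_two_mul (n : ℕ) : 2 * n.choose 2 = n * (n - 1) := by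
  rw [Nat.choose_two_right, Nat.mul_div_cancel' (Nat.even_mul_pred_self n).two_dvd]

/-- from degree `2 a - 1` on, the expected dimension of the ideal is everything -/
lemma full_of_ge {s a j : ℕ} (hs : 4 ≤ s) (hj : 2 * a ≤ j + 1) :
    (j + 2).choose 2 ≤ s * (j + 2 - a).choose 2 := by
  have h1 := choose_two_mul (j + 2)
  have h2 := choose_two_mul (j + 2 - a)
  obtain ⟨t, ht⟩ : ∃ t, j + 1 = 2 * a + t := ⟨j + 1 - 2 * a, by omega⟩
  have h3 : j + 2 - a = a + t + 1 := by omega
  have h4 : j + 2 = 2 * a + t + 1 := by omega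
  rw [h3] at h2 ⊢
  rw [h4] at h1 ⊢
  rw [Nat.add_sub_cancel] at h1 h2
  have h5 : 4 * (a + t + 1).choose 2 ≤ s * (a + t + 1).choose 2 := Nat.mul_le_mul_right _ hs
  nlinarith

/-- monotonicity in the degree -/
lemma full_mono {s a j : ℕ} (h : (j + 2).choose 2 ≤ s * (j + 2 - a).choose 2) :
    (j + 1 + 2).choose 2 ≤ s * (j + 1 + 2 - a).choose 2 := by
  rcases Nat.lt_or_ge (j + 2) a with hlt | hge
  · have h1 : j + 2 - a = 0 := by omega
    rw [h1] at h
    have h2 : 0 < (j + 2).choose 2 := Nat.choose_pos (by omega)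
    simp at h
    omega
  · obtain ⟨u, hu⟩ : ∃ u, u = j + 2 - a := ⟨_, rfl⟩
    have h3 : j + 1 + 2 - a = u + 1 := by omega
    rw [h3]
    rw [← hu] at h
    have hu' : u ≤ j + 2 := by omega
    have a1 := choose_two_mul (j + 2)
    have a2 := choose_two_mul (j + 1 + 2)
    have a3 := choose_two_mul u
    have a4 := choose_two_mul (u + 1)
    rw [Nat.add_sub_cancel] at a4
    have e1 : j + 2 - 1 = j + 1 := rfl
    have e2 : j + 1 + 2 - 1 = j + 2 := rfl
    rw [e1] at a1
    rw [e2] at a2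
    rcases Nat.eq_zero_or_pos u with h0 | hpos
    · rw [h0] at h
      have h2 : 0 < (j + 2).choose 2 := Nat.choose_pos (by omega)
      simp at h
      omega
    obtain ⟨v, hv⟩ : ∃ v, u = v + 1 := ⟨u - 1, by omega⟩
    subst hv
    rw [Nat.add_sub_cancel] at a3
    -- `(j + 2) (j + 1) ≤ s (v + 1) v`
    have b1 : (j + 2) * (j + 1) ≤ s * ((v + 1) * v) := by nlinarith
    have b2 : (j + 1 + 2) * (j + 2) ≤ s * ((v + 1 + 1) * (v + 1)) := by
      have c1 : (j + 3) * v ≤ (v + 2) * (j + 1) := by nlinarith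
      have c2 : (j + 1) * ((j + 1 + 2) * (j + 2)) ≤ (j + 1) * (s * ((v + 1 + 1) * (v + 1))) := by
        calc (j + 1) * ((j + 1 + 2) * (j + 2)) = (j + 3) * ((j + 2) * (j + 1)) := by ring
          _ ≤ (j + 3) * (s * ((v + 1) * v)) := Nat.mul_le_mul_left _ b1
          _ = s * (v + 1) * ((j + 3) * v) := by ring
          _ ≤ s * (v + 1) * ((v + 2) * (j + 1)) := Nat.mul_le_mul_left _ c1
          _ = (j + 1) * (s * ((v + 1 + 1) * (v + 1))) := by ring
      exact Nat.le_of_mul_le_mul_left c2 (by omega)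
    have b3 : 2 * (s * (v + 1 + 1).choose 2) = s * ((v + 1 + 1) * (v + 1)) := by
      rw [← a4]; ring
    omega

lemma full_mono' {s a i j : ℕ} (hij : i ≤ j) (h : (i + 2).choose 2 ≤ s * (i + 2 - a).choose 2) :
    (j + 2).choose 2 ≤ s * (j + 2 - a).choose 2 := by
  induction j, hij using Nat.le_induction with
  | base => exact h
  | succ j _ ih => exact full_mono ih

/-- **powers of generic forms in three variables** -/
theorem main_J {s a : ℕ} (hs : 4 ≤ s) (δ q : Fin s → ℕ)
    (hδ : ∀ i, δ i * q i = a) (B : Set ℕ)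
    (hB : ∃ j1, (j1 + 1 = 2 * a ∨ j1 = 2 * a) ∧ j1 ∉ B) (P : Fin s → Fin 2 → 𝕜)
    (hP : ∀ j, a ≤ j → j ≤ 2 * a → j ∉ B → ExpDim 𝕜 (fun _ : Fin s => j + 1 - a) P j) :
    ∃ Φ : MvPolynomial (Cf (Fin 3) δ) 𝕜, Φ ≠ 0 ∧ ∀ c, eval c Φ ≠ 0 → ∀ j, j ∉ B →
      Module.finrank 𝕜 (J (fList (fun i => δ i * q i) (fun i => fc c i ^ q i)) j) =
        min ((j + 2).choose 2) (s * (j + 2 - a).choose 2) := by
  choose Φ h0 hΦ using fun j =>
    Pool.Agent.TH130.FP.generic_Jpow (K := 𝕜) δ q j (c0 δ (pt3 P))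
  refine ⟨∏ j ∈ Finset.range (2 * a + 1), Φ j, Finset.prod_ne_zero_iff.2 fun j _ => h0 j, ?_⟩
  intro c hc
  obtain ⟨l, hl⟩ : ∃ l, l = fList (fun i => δ i * q i) (fun i => fc c i ^ q i) := ⟨_, rfl⟩
  rw [← hl]
  have hgood : ∀ c' ∈ l, c'.1 ∈ Rj 𝕜 (Fin 3) c'.2 ∧ c'.2 = a := by
    intro c' hc'
    rw [hl] at hc'
    obtain ⟨i, rfl⟩ := mem_fList.1 hc'
    exact ⟨Pool.Agent.TH130.FP.fcpow_hom c i, hδ i⟩
  have hlen : l.length = s := by rw [hl]; unfold fList; rw [List.length_ofFn]
  have hup : ∀ j, Module.finrank 𝕜 (J l j) ≤ min ((j + 2).choose 2) (s * (j + 2 - a).choose 2) := by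
    intro j
    refine le_min ?_ ?_
    · rw [← finrank_R3 (𝕜 := 𝕜)]
      exact Submodule.finrank_mono (J_le (fun c' hc' => (hgood c' hc').1) j)
    · have := finrank_J_le (j := j) l hgood
      rwa [hlen] at this
  have hlow : ∀ j, j ≤ 2 * a → j ∉ B →
      min ((j + 2).choose 2) (s * (j + 2 - a).choose 2) ≤ Module.finrank 𝕜 (J l j) := by
    intro j hj hjB
    rcases Nat.lt_or_ge j a with hja | hja
    · have h1 : (j + 2 - a).choose 2 = 0 := Nat.choose_eq_zero_of_lt (by omega)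
      rw [h1, mul_zero, Nat.min_zero]
      exact Nat.zero_le _
    · have h1 := finrank_fat hja (hP j hja hj hjB)
      have h2 := apolar (fun _ : Fin s => a) (pt3 P) j
      rw [finrank_R3] at h2
      have h3 : eval c (Φ j) ≠ 0 := by
        intro h
        apply hc
        rw [map_prod]
        exact Finset.prod_eq_zero (Finset.mem_range.2 (by omega)) h
      have h4 := hΦ j c h3
      have hlist : fList (fun i => δ i * q i) (fun i => fc (c0 δ (pt3 P)) i ^ q i) =
          powList (fun _ : Fin s => a) (pt3 P) := by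
        unfold fList powList
        congr 1
        funext i
        have h : (fc (c0 δ (pt3 P)) i : MvPolynomial (Fin 3) 𝕜) ^ q i =
            lin (fun k => pt3 P (i, k)) ^ a := by
          rw [fc_c0, ← pow_mul, hδ i]
        exact Prod.ext h (hδ i)
      rw [hlist, ← hl] at h4
      rw [min_le_iff]
      omega
  obtain ⟨j1, hj1, hj1B⟩ := hB
  have hfull1 : Rj 𝕜 (Fin 3) j1 ≤ J l j1 := by
    have h1 := hlow j1 (by omega) hj1B
    rw [min_eq_left (full_of_ge hs (by omega)), ← finrank_R3 (𝕜 := 𝕜)] at h1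
    exact le_of_eq (Submodule.eq_of_le_of_finrank_le
      (J_le (fun c' hc' => (hgood c' hc').1) j1) h1).symm
  have hfull : ∀ j, j1 ≤ j → Rj 𝕜 (Fin 3) j ≤ J l j := by
    intro j hj
    induction j, hj using Nat.le_induction with
    | base => exact hfull1
    | succ j _ ih => exact J_full_succ l ih
  intro j hjB
  refine le_antisymm (hup j) ?_
  rcases Nat.lt_or_ge (2 * a) j with hlt | hge
  · have i1 : FiniteDimensional 𝕜 (J l j) :=
      Submodule.finiteDimensional_of_le (J_le (fun c' hc' => (hgood c' hc').1) j)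
    have h1 := Submodule.finrank_mono (hfull j (by omega))
    rw [finrank_R3] at h1
    exact (min_le_left _ _).trans h1
  · exact hlow j hge hjB

end

end Pool.Agent.TH434.FR
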