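import Mathlib
import Pool.Agent.TH434.FR.Main
import Pool.Agent.TH641.EN.Fin
import Pool.Agent.TH434.NW.Near

/-!
# Powers of generic forms in three variables: numbers and final statements
-/

set_option autoImplicit false

namespace Pool.Agent.TH434.FR

open MvPolynomial H350MG Pool.Agent.H932R3

noncomputable section

/-- the coefficient of `t ^ j` in `(1 - t ^ a) ^ s / (1 - t) ^ 3` -/
def co3 (s a j : ℕ) : ℤ :=
  ∑ i ∈ Finset.range (s + 1),
    if i * a ≤ j then (-1) ^ i * (s.choose i : ℤ) * (((j - i * a + 2).choose 2 : ℕ) : ℤ) else 0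

open Classical in
/-- the coefficient of `t ^ j` in the truncated series -/
def fro3 (s a j : ℕ) : ℤ := if ∀ i ≤ j, 0 < co3 s a i then co3 s a j else 0

lemma co3_lt {s a j : ℕ} (hs : 1 ≤ s) (hj : j < 2 * a) :
    co3 s a j = ((j + 2).choose 2 : ℕ) - (s * (j + 2 - a).choose 2 : ℕ) := by
  unfold co3
  rw [← Finset.sum_subset (s₁ := Finset.range 2) (Finset.range_subset_range.2 (by omega)),
    Finset.sum_range_succ, Finset.sum_range_one]
  · rw [Nat.zero_mul, if_pos (Nat.zero_le _), Nat.sub_zero, pow_zero, Nat.choose_zero_right,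
      Nat.one_mul, Nat.choose_one_right, pow_one]
    by_cases h : a ≤ j
    · rw [if_pos h]
      have h2 : j - a + 2 = j + 2 - a := by omega
      rw [h2]
      push_cast
      ring
    · rw [if_neg h]
      have h1 : (j + 2 - a).choose 2 = 0 := Nat.choose_eq_zero_of_lt (by omega)
      rw [h1]
      push_cast
      ring
  · intro i _ hi
    rw [Finset.mem_range, not_lt] at hi
    rw [if_neg]
    have : 2 * a ≤ i * a := Nat.mul_le_mul_right _ hi
    omega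

lemma fro3_eq {s a : ℕ} (hs : 4 ≤ s) (ha : 1 ≤ a) (j : ℕ) :
    fro3 s a j = ((j + 2).choose 2 : ℕ) -
      ((min ((j + 2).choose 2) (s * (j + 2 - a).choose 2) : ℕ) : ℤ) := by
  unfold fro3
  split_ifs with h
  · have hj : j + 1 < 2 * a := by
      by_contra hcon
      have h1 := h (2 * a - 1) (by omega)
      rw [co3_lt (by omega) (by omega)] at h1
      have h2 := full_of_ge (s := s) (a := a) (j := 2 * a - 1) hs (by omega)
      omega
    have h1 := h j le_rfl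
    rw [co3_lt (by omega) (by omega)] at h1 ⊢
    rw [min_eq_right (by omega)]
  · push Not at h
    obtain ⟨i, hij, hi⟩ := h
    have hfull : (j + 2).choose 2 ≤ s * (j + 2 - a).choose 2 := by
      rcases Nat.lt_or_ge i (2 * a) with hlt | hge
      · rw [co3_lt (by omega) hlt] at hi
        exact full_mono' hij (by omega)
      · exact full_of_ge hs (by omega)
    rw [min_eq_left hfull, sub_self]

/-- The Hilbert function of `ℂ[x, y, z] / (g i ^ q i)` in degree `j`. -/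
def hilb {s : ℕ} (q : Fin s → ℕ) (g : Fin s → MvPolynomial (Fin 3) ℂ) (j : ℕ) : ℤ :=
  (Module.finrank ℂ (MvPolynomial.homogeneousSubmodule (Fin 3) ℂ j) : ℤ) -
    (Module.finrank ℂ
      ↥(Submodule.restrictScalars ℂ (Ideal.span (Set.range fun i => g i ^ q i)) ⊓
        MvPolynomial.homogeneousSubmodule (Fin 3) ℂ j) : ℤ)

/-- finitely many nonzero polynomials do not vanish at a common point -/
lemma exists_point {n : ℕ} {ι : Type} (T : Finset ι) (F : ι → MvPolynomial (Fin n × Fin 2) ℚ)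
    (hF : ∀ i ∈ T, F i ≠ 0) :
    ∃ P : Fin n → Fin 2 → ℂ, ∀ i ∈ T,
      MvPolynomial.aeval (fun ij : Fin n × Fin 2 => P ij.1 ij.2) (F i) ≠ 0 := by
  have h1 : ((∏ i ∈ T, F i).map (algebraMap ℚ ℂ)) ≠ 0 :=
    map_ne_zero_of (Finset.prod_ne_zero_iff.2 hF)
  obtain ⟨x, hx⟩ : ∃ x : Fin n × Fin 2 → ℂ, eval x ((∏ i ∈ T, F i).map (algebraMap ℚ ℂ)) ≠ 0 := by
    by_contra hcon
    push Not at hcon
    exact h1 (MvPolynomial.funext fun x => by rw [hcon x, map_zero])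
  refine ⟨fun i k => x (i, k), fun i hi => ?_⟩
  rw [eval_map] at hx
  change aeval x (∏ i ∈ T, F i) ≠ 0 at hx
  rw [map_prod] at hx
  exact Finset.prod_ne_zero_iff.1 hx i hi

/-- from dimensions of fat points of the plane to powers of generic forms -/
theorem hilb_eq {s a : ℕ} (hs : 4 ≤ s) (ha : 1 ≤ a) (B : Set ℕ)
    (hB : ∃ j1, (j1 + 1 = 2 * a ∨ j1 = 2 * a) ∧ j1 ∉ B)
    (hF : ∀ j, a ≤ j → j ≤ 2 * a → j ∉ B → ∃ F : MvPolynomial (Fin s × Fin 2) ℚ, F ≠ 0 ∧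
      ∀ P : Fin s → Fin 2 → ℂ,
        MvPolynomial.aeval (fun ij : Fin s × Fin 2 => P ij.1 ij.2) F ≠ 0 →
        ExpDim ℂ (fun _ : Fin s => j + 1 - a) P j)
    (δ q : Fin s → ℕ) (hδ : ∀ i, δ i * q i = a) :
    ∃ Φ : MvPolynomial (Σ i : Fin s, {m : Fin 3 →₀ ℕ // Finsupp.degree m = δ i}) ℂ, Φ ≠ 0 ∧
      ∀ g : Fin s → MvPolynomial (Fin 3) ℂ, (∀ i, (g i).IsHomogeneous (δ i)) →
        MvPolynomial.eval
          (fun x : (Σ i : Fin s, {m : Fin 3 →₀ ℕ // Finsupp.degree m = δ i}) =>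
            (g x.1).coeff x.2.1) Φ ≠ 0 →
        ∀ j, j ∉ B → hilb q g j = fro3 s a j := by
  classical
  have h1 : ∀ j, ∃ F : MvPolynomial (Fin s × Fin 2) ℚ, F ≠ 0 ∧
      (a ≤ j → j ≤ 2 * a → j ∉ B → ∀ P : Fin s → Fin 2 → ℂ,
        MvPolynomial.aeval (fun ij : Fin s × Fin 2 => P ij.1 ij.2) F ≠ 0 →
        ExpDim ℂ (fun _ : Fin s => j + 1 - a) P j) := by
    intro j
    by_cases h : a ≤ j ∧ j ≤ 2 * a ∧ j ∉ B
    · obtain ⟨F, h0, h2⟩ := hF j h.1 h.2.1 h.2.2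
      exact ⟨F, h0, fun _ _ _ => h2⟩
    · exact ⟨1, one_ne_zero, fun x y z => absurd ⟨x, y, z⟩ h⟩
  choose F hF0 hF1 using h1
  obtain ⟨P, hP⟩ := exists_point (Finset.range (2 * a + 1)) F fun j _ => hF0 j
  obtain ⟨Φ, hΦ0, hΦ⟩ := main_J (𝕜 := ℂ) hs δ q hδ B hB P fun j h2 h3 h4 =>
    hF1 j h2 h3 h4 P (hP j (Finset.mem_range.2 (by omega)))
  refine ⟨Φ, hΦ0, fun g hg hgΦ j hjB => ?_⟩
  have h2 := hΦ _ hgΦ j hjB
  have h3 : ∀ i, fc (fun x : Cf (Fin 3) δ => (g x.1).coeff x.2.1) i = g i :=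
    fun i => fc_coeff (d := δ) hg i
  have h4 : (fun i => fc (fun x : Cf (Fin 3) δ => (g x.1).coeff x.2.1) i ^ q i) =
      fun i => g i ^ q i := funext fun i => by rw [h3 i]
  rw [h4] at h2
  unfold hilb
  rw [span_inf_eq (f := fun i => g i ^ q i) (d := fun i => δ i * q i)
      (fun i => (hg i).pow (q i)) j, h2, fro3_eq hs ha]
  congr 1
  exact_mod_cast finrank_R3 (𝕜 := ℂ) j

/-- **all degrees, many forms** -/
theorem full_of_expDim {s : ℕ} (hs : 4 ≤ s)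
    (H : ∀ m : ℕ, 1 ≤ m → ∃ F : MvPolynomial (Fin s × Fin 2) ℚ, F ≠ 0 ∧
      ∀ P : Fin s → Fin 2 → ℂ,
        MvPolynomial.aeval (fun ij : Fin s × Fin 2 => P ij.1 ij.2) F ≠ 0 →
        ∀ d : ℕ, ExpDim ℂ (fun _ : Fin s => m) P d)
    {a : ℕ} (ha : 1 ≤ a) (δ q : Fin s → ℕ) (hδ : ∀ i, δ i * q i = a) :
    ∃ Φ : MvPolynomial (Σ i : Fin s, {m : Fin 3 →₀ ℕ // Finsupp.degree m = δ i}) ℂ, Φ ≠ 0 ∧
      ∀ g : Fin s → MvPolynomial (Fin 3) ℂ, (∀ i, (g i).IsHomogeneous (δ i)) →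
        MvPolynomial.eval
          (fun x : (Σ i : Fin s, {m : Fin 3 →₀ ℕ // Finsupp.degree m = δ i}) =>
            (g x.1).coeff x.2.1) Φ ≠ 0 →
        ∀ j, hilb q g j = fro3 s a j := by
  obtain ⟨Φ, h0, h1⟩ := hilb_eq hs ha (∅ : Set ℕ) ⟨2 * a, Or.inr rfl, fun h => h⟩
    (fun j hj _ _ => by
      obtain ⟨F, hF0, hF⟩ := H (j + 1 - a) (by omega)
      exact ⟨F, hF0, fun P hP => hF P hP j⟩) δ q hδ
  exact ⟨Φ, h0, fun g hg hgΦ j => h1 g hg hgΦ j (fun h => h)⟩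

/-- the only degree which may be undecided at `s` forms with exponent `a` -/
def dcrit (s a : ℕ) : Set ℕ :=
  {j | a ≤ j ∧ j = Pool.Agent.TH434.NW.ncrit s ((s : ℝ) * ((j : ℝ) + 1 - a))}

lemma dcrit_subsingleton {s a : ℕ} (hs : 10 ≤ s) : (dcrit s a).Subsingleton := by
  have hsR : (10 : ℝ) ≤ s := by exact_mod_cast hs
  have h3 : 3 ≤ √(s : ℝ) := Real.le_sqrt_of_sq_le (by linarith)
  have h0 : 0 < √(s : ℝ) := by linarith
  have hss : √(s : ℝ) * √(s : ℝ) = s := Real.mul_self_sqrt (by linarith)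
  have hmin : 0 ≤ min (√(s : ℝ) - 3) (2 / 3 + 1 / (4 * √(s : ℝ))) :=
    le_min (by linarith) (by positivity)
  have key : ∀ i j : ℕ, i ∈ dcrit s a → j ∈ dcrit s a → ¬ i < j := by
    intro i j hi hj hij
    obtain ⟨hi1, hi2⟩ := hi
    obtain ⟨hj1, hj2⟩ := hj
    unfold Pool.Agent.TH434.NW.ncrit at hi2 hj2
    have e1 : ∀ x : ℝ, 2 * ((s : ℝ) * x) / √(s : ℝ) = 2 * √(s : ℝ) * x := by
      intro x
      rw [div_eq_iff h0.ne']
      calc 2 * ((s : ℝ) * x) = 2 * ((√(s : ℝ) * √(s : ℝ)) * x) := by rw [hss]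
        _ = 2 * √(s : ℝ) * x * √(s : ℝ) := by ring
    rw [e1] at hi2 hj2
    have hiR : (a : ℝ) ≤ i := by exact_mod_cast hi1
    have hjR : (a : ℝ) ≤ j := by exact_mod_cast hj1
    have hijR : (i : ℝ) + 1 ≤ j := by exact_mod_cast hij
    have pi : 0 ≤ 2 * √(s : ℝ) * ((i : ℝ) + 1 - a) := by
      have : 0 ≤ (i : ℝ) + 1 - a := by linarith
      positivity
    have pj : 0 ≤ 2 * √(s : ℝ) * ((j : ℝ) + 1 - a) := by
      have : 0 ≤ (j : ℝ) + 1 - a := by linarith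
      positivity
    have u1 := Nat.lt_floor_add_one ((√(s : ℝ) + 2 * √(s : ℝ) * ((j : ℝ) + 1 - a) - 3 +
      min (√(s : ℝ) - 3) (2 / 3 + 1 / (4 * √(s : ℝ)))) / 2)
    have u2 := Nat.floor_le (a := (√(s : ℝ) + 2 * √(s : ℝ) * ((i : ℝ) + 1 - a) - 3 +
      min (√(s : ℝ) - 3) (2 / 3 + 1 / (4 * √(s : ℝ)))) / 2) (by linarith)
    rw [← hj2] at u1
    rw [← hi2] at u2
    nlinarith
  intro i hi j hj
  rcases lt_trichotomy i j with h | h | h
  · exact absurd h (key i j hi hj)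
  · exact h
  · exact absurd h (key j i hj hi)

/-- **every number of forms from ten on: all degrees but one** -/
theorem all_but_one {s : ℕ} (hs : 10 ≤ s) {a : ℕ} (ha : 1 ≤ a) :
    ∃ j0 : ℕ, ∀ δ q : Fin s → ℕ, (∀ i, δ i * q i = a) →
    ∃ Φ : MvPolynomial (Σ i : Fin s, {m : Fin 3 →₀ ℕ // Finsupp.degree m = δ i}) ℂ, Φ ≠ 0 ∧
      ∀ g : Fin s → MvPolynomial (Fin 3) ℂ, (∀ i, (g i).IsHomogeneous (δ i)) →
        MvPolynomial.eval
          (fun x : (Σ i : Fin s, {m : Fin 3 →₀ ℕ // Finsupp.degree m = δ i}) =>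
            (g x.1).coeff x.2.1) Φ ≠ 0 →
        ∀ j, j ≠ j0 → hilb q g j = fro3 s a j := by
  classical
  have hsub := dcrit_subsingleton (a := a) hs
  obtain ⟨j0, hj0⟩ : ∃ j0 : ℕ, dcrit s a ⊆ {j0} := by
    rcases hsub.eq_empty_or_singleton with h | ⟨x, h⟩
    · exact ⟨0, by rw [h]; exact Set.empty_subset _⟩
    · exact ⟨x, by rw [h]⟩
  refine ⟨j0, fun δ q hδ => ?_⟩
  obtain ⟨Φ, h0, h1⟩ := hilb_eq (s := s) (by omega) ha ({j0} : Set ℕ) (by
      by_cases h : j0 = 2 * a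
      · exact ⟨2 * a - 1, Or.inl (by omega), by rw [Set.mem_singleton_iff]; omega⟩
      · exact ⟨2 * a, Or.inr rfl, by rw [Set.mem_singleton_iff]; omega⟩)
    (fun j hj _ hjB => by
      obtain ⟨F, hF0, hF⟩ := Pool.Agent.TH434.NW.near_all_but_one (L := ℂ) (n := s)
        (m := j + 1 - a) hs (by omega) (w := fun _ => j + 1 - a) (fun _ => Or.inl rfl)
      refine ⟨F, hF0, fun P hP => hF P hP j ?_⟩
      intro hcon
      apply hjB
      apply hj0
      refine ⟨hj, ?_⟩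
      rw [Finset.sum_const, Finset.card_univ, Fintype.card_fin, nsmul_eq_mul,
        Nat.cast_sub (by omega)] at hcon
      push_cast at hcon
      exact hcon) δ q hδ
  exact ⟨Φ, h0, fun g hg hgΦ j hj => h1 g hg hgΦ j hj⟩

/-- **at least `37` forms: all degrees** -/
theorem all_37 {s : ℕ} (hs : 37 ≤ s) {a : ℕ} (ha : 1 ≤ a) (δ q : Fin s → ℕ)
    (hδ : ∀ i, δ i * q i = a) :
    ∃ Φ : MvPolynomial (Σ i : Fin s, {m : Fin 3 →₀ ℕ // Finsupp.degree m = δ i}) ℂ, Φ ≠ 0 ∧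
      ∀ g : Fin s → MvPolynomial (Fin 3) ℂ, (∀ i, (g i).IsHomogeneous (δ i)) →
        MvPolynomial.eval
          (fun x : (Σ i : Fin s, {m : Fin 3 →₀ ℕ // Finsupp.degree m = δ i}) =>
            (g x.1).coeff x.2.1) Φ ≠ 0 →
        ∀ j, hilb q g j = fro3 s a j :=
  full_of_expDim (by omega) (fun _ hm => Pool.Agent.TH641.EN.exp37 (L := ℂ) hs hm) ha δ q hδ

end

end Pool.Agent.TH434.FR
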