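import Mathlib
import Pool.Agent.TH434.FR.Fin
import Pool.Agent.TH434.FR.Ter

/-!
# Sums of powers of ternary forms: the generic rank
-/

set_option autoImplicit false
set_option maxHeartbeats 1000000

namespace Pool.Agent.TH434.FR

open MvPolynomial H350MG Pool.Agent.H932R3

noncomputable section

/-- `s` is the `k`-rank of the general ternary form of degree `k d` -/
def IsGenRank (k d s : ℕ) : Prop :=
  ∃ Ψ : MvPolynomial {m : Fin 3 →₀ ℕ // Finsupp.degree m = k * d} ℂ, Ψ ≠ 0 ∧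
    ∀ f : MvPolynomial (Fin 3) ℂ, f.IsHomogeneous (k * d) →
      eval (fun m : {m : Fin 3 →₀ ℕ // Finsupp.degree m = k * d} => f.coeff m.1) Ψ ≠ 0 →
      IsLeast {t : ℕ | ∃ g : Fin t → MvPolynomial (Fin 3) ℂ, (∀ i, (g i).IsHomogeneous d) ∧
        f = ∑ i, g i ^ k} s

/-- the parameter count -/
def expRank (k d : ℕ) : ℕ :=
  ((k * d + 2).choose 2 + (d + 2).choose 2 - 1) / (d + 2).choose 2

lemma expRank_spec (k d : ℕ) :
    (k * d + 2).choose 2 ≤ expRank k d * (d + 2).choose 2 ∧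
      (expRank k d - 1) * (d + 2).choose 2 < (k * d + 2).choose 2 := by
  unfold expRank
  obtain ⟨N, hN⟩ : ∃ N, N = (k * d + 2).choose 2 := ⟨_, rfl⟩
  obtain ⟨M, hM⟩ : ∃ M, M = (d + 2).choose 2 := ⟨_, rfl⟩
  have hN0 : 0 < N := by rw [hN]; exact Nat.choose_pos (by omega)
  have hM0 : 0 < M := by rw [hM]; exact Nat.choose_pos (by omega)
  rw [← hN, ← hM]
  have h1 := Nat.div_add_mod (N + M - 1) M
  have h2 := Nat.mod_lt (N + M - 1) hM0
  obtain ⟨q, hq⟩ : ∃ q, q = (N + M - 1) / M := ⟨_, rfl⟩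
  rw [← hq] at h1 ⊢
  have h3 : q * M = M * q := Nat.mul_comm _ _
  have h4 : (q - 1) * M = M * q - M := by rw [Nat.sub_mul, one_mul, h3]
  omega

/-- linear forms: the ideal of the powers contains everything in degree `(k + 1) d` -/
lemma exists_full {s d k : ℕ} (h2 : ((k + 1) * d + 2).choose 2 ≤ s * (d + 2).choose 2)
    (H : ∃ F : MvPolynomial (Fin s × Fin 2) ℚ, F ≠ 0 ∧ ∀ P : Fin s → Fin 2 → ℂ,
      MvPolynomial.aeval (fun ij : Fin s × Fin 2 => P ij.1 ij.2) F ≠ 0 →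
      ExpDim ℂ (fun _ : Fin s => d + 1) P ((k + 1) * d)) :
    ∃ x : Cf (Fin 3) (fun _ : Fin s => d) → ℂ, Rj ℂ (Fin 3) ((k + 1) * d) ≤
      J (fList (fun _ : Fin s => d * k) (fun i => fc x i ^ k)) ((k + 1) * d) := by
  obtain ⟨F, hF0, hF⟩ := H
  obtain ⟨P, hP⟩ := exists_point (Finset.range 1) (fun _ => F) fun _ _ => hF0
  have h3 := hF P (hP 0 (Finset.mem_range.2 one_pos))
  refine ⟨c0 (fun _ => d) (pt3 P), ?_⟩
  have hj : (k + 1) * d = d * k + d := by ring
  have e1 : (k + 1) * d + 1 - d * k = d + 1 := by omega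
  have e2 : (k + 1) * d + 2 - d * k = d + 2 := by omega
  have h4 := finrank_fat (s := s) (a := d * k) (j := (k + 1) * d) (by omega) (P := P)
    (by rw [e1]; exact h3)
  rw [e2, Nat.sub_eq_zero_of_le h2] at h4
  have h5 := apolar (fun _ : Fin s => d * k) (pt3 P) ((k + 1) * d)
  have hlist : fList (fun _ : Fin s => d * k) (fun i => fc (c0 (fun _ => d) (pt3 P)) i ^ k) =
      powList (fun _ : Fin s => d * k) (pt3 P) := by
    unfold fList powList
    congr 1
    funext i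
    have h : (fc (c0 (fun _ => d) (pt3 P)) i : MvPolynomial (Fin 3) ℂ) ^ k =
        lin (fun k => pt3 P (i, k)) ^ (d * k) := by
      rw [fc_c0, ← pow_mul]
    exact Prod.ext h rfl
  rw [hlist]
  have h6 : J (powList (fun _ : Fin s => d * k) (pt3 P)) ((k + 1) * d) ≤
      Rj ℂ (Fin 3) ((k + 1) * d) := J_le (powList_good _ _) _
  exact le_of_eq (Submodule.eq_of_le_of_finrank_le h6 (by omega)).symm

/-- the generic rank from one dimension of fat points -/
theorem isGenRank_of {k d : ℕ} (hk : 1 ≤ k)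
    (H : ∃ F : MvPolynomial (Fin (expRank k d) × Fin 2) ℚ, F ≠ 0 ∧
      ∀ P : Fin (expRank k d) → Fin 2 → ℂ,
      MvPolynomial.aeval (fun ij : Fin (expRank k d) × Fin 2 => P ij.1 ij.2) F ≠ 0 →
      ExpDim ℂ (fun _ : Fin (expRank k d) => d + 1) P (k * d)) :
    IsGenRank k d (expRank k d) := by
  classical
  obtain ⟨h1, h2⟩ := expRank_spec k d
  obtain ⟨s, hs⟩ : ∃ s, s = expRank k d := ⟨_, rfl⟩
  rw [← hs] at h1 h2 H ⊢
  obtain ⟨k', rfl⟩ : ∃ k', k = k' + 1 := ⟨k - 1, by omega⟩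
  obtain ⟨x, hx⟩ := exists_full h1 H
  obtain ⟨Ψ1, h10, h11⟩ := terracini x hx
  obtain ⟨Ψ2, h20, h21⟩ := not_sum (s := s - 1) (d := d) (k := k' + 1) h2
  refine ⟨Ψ1 * Ψ2, mul_ne_zero h10 h20, fun f hf hfΨ => ?_⟩
  rw [map_mul] at hfΨ
  refine ⟨h11 f hf (left_ne_zero_of_mul hfΨ), ?_⟩
  rintro t ⟨g, hg, hgf⟩
  by_contra hlt
  rw [not_le] at hlt
  obtain ⟨e, he⟩ : ∃ e, s - 1 = t + e := ⟨s - 1 - t, by omega⟩
  refine h21 f (right_ne_zero_of_mul hfΨ) ?_
  rw [he]
  refine ⟨Fin.append g (fun _ : Fin e => 0), ?_, ?_⟩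
  · intro i
    refine Fin.addCases (fun i => ?_) (fun i => ?_) i
    · rw [Fin.append_left]; exact hg i
    · rw [Fin.append_right]; exact isHomogeneous_zero _ _ _
  · rw [Fin.sum_univ_add, hgf]
    have z : ∑ i : Fin e, Fin.append g (fun _ : Fin e => (0 : MvPolynomial (Fin 3) ℂ))
        (Fin.natAdd t i) ^ (k' + 1) = 0 :=
      Finset.sum_eq_zero fun i _ => by rw [Fin.append_right, zero_pow (by omega)]
    rw [z, add_zero]
    exact Finset.sum_congr rfl fun i _ => by rw [Fin.append_left]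

/-- **expected value at least `37`** -/
theorem genRank_37 {k d : ℕ} (hk : 1 ≤ k)
    (h : 36 * (d + 2).choose 2 < (k * d + 2).choose 2) : IsGenRank k d (expRank k d) := by
  have h1 := (expRank_spec k d).1
  have hM0 : 0 < (d + 2).choose 2 := Nat.choose_pos (by omega)
  have h2 : 37 ≤ expRank k d := by
    by_contra hcon
    have h3 : expRank k d * (d + 2).choose 2 ≤ 36 * (d + 2).choose 2 :=
      Nat.mul_le_mul_right _ (by omega)
    omega
  refine isGenRank_of hk ?_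
  obtain ⟨F, hF0, hF⟩ := Pool.Agent.TH641.EN.exp37 (L := ℂ) h2 (m := d + 1) (by omega)
  exact ⟨F, hF0, fun P hP => hF P hP (k * d)⟩

/-- **expected value at least `10`, outside the window** -/
theorem genRank_win {k d : ℕ} (hk : 1 ≤ k) (hs : 10 ≤ expRank k d)
    (h : min (√(expRank k d : ℝ) - 3) (2 / 3 + 9 / (4 * √(expRank k d : ℝ))) <
      √(expRank k d : ℝ) * (2 * d + 3) - (2 * (k * d) + 3)) :
    IsGenRank k d (expRank k d) := by
  refine isGenRank_of hk ?_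
  obtain ⟨F, hF0, hF⟩ := Pool.Agent.TH434.NW.near_win (L := ℂ) (n := expRank k d)
    (m := d + 1) hs (by omega) (w := fun _ => d + 1) (fun _ => Or.inl rfl)
  refine ⟨F, hF0, fun P hP => hF P hP (k * d) (Or.inl ?_)⟩
  have hsR : (10 : ℝ) ≤ (expRank k d : ℝ) := by exact_mod_cast hs
  have h0 : 0 < √(expRank k d : ℝ) := Real.sqrt_pos.2 (by linarith)
  have hss : √(expRank k d : ℝ) * √(expRank k d : ℝ) = expRank k d :=
    Real.mul_self_sqrt (by linarith)
  rw [Finset.sum_const, Finset.card_univ, Fintype.card_fin, nsmul_eq_mul]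
  have e1 : 2 * ((expRank k d : ℝ) * ((d + 1 : ℕ) : ℝ)) / √(expRank k d : ℝ) =
      2 * √(expRank k d : ℝ) * ((d : ℝ) + 1) := by
    rw [div_eq_iff h0.ne']
    push_cast
    calc 2 * ((expRank k d : ℝ) * ((d : ℝ) + 1)) =
        2 * ((√(expRank k d : ℝ) * √(expRank k d : ℝ)) * ((d : ℝ) + 1)) := by rw [hss]
      _ = 2 * √(expRank k d : ℝ) * ((d : ℝ) + 1) * √(expRank k d : ℝ) := by ring
  rw [e1]
  push_cast
  linarith

lemma two_choose (n : ℕ) : 2 * (n + 2).choose 2 = (n + 2) * (n + 1) := by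
  rw [choose_two_mul]
  rfl

/-- all `k ≥ 10`, `d ≥ 2` -/
lemma cond_ten {k d : ℕ} (hk : 10 ≤ k) (hd : 2 ≤ d) :
    36 * (d + 2).choose 2 < (k * d + 2).choose 2 := by
  have h1 := two_choose d
  have h2 := two_choose (k * d)
  have h3 : 10 * d ≤ k * d := Nat.mul_le_mul_right _ hk
  nlinarith

/-- all `k ≥ 7`, `d ≥ 8` -/
lemma cond_seven {k d : ℕ} (hk : 7 ≤ k) (hd : 8 ≤ d) :
    36 * (d + 2).choose 2 < (k * d + 2).choose 2 := by
  have h1 := two_choose d
  have h2 := two_choose (k * d)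
  have h3 : 7 * d ≤ k * d := Nat.mul_le_mul_right _ hk
  nlinarith

end

end Pool.Agent.TH434.FR
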