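import Mathlib
import Pool.Agent.TH434.FR.Rank

/-!
# Sums of powers of ternary forms: all `k ≥ 4`, `d ≥ 2` but `52` pairs
-/

set_option autoImplicit false
set_option maxHeartbeats 1000000

namespace Pool.Agent.TH434.FR

/-- the window in natural numbers -/
theorem genRank_nat {k d : ℕ} (hk : 1 ≤ k) (hs : 10 ≤ expRank k d)
    (h : (k * d) ^ 2 < expRank k d * (d + 1) ^ 2 ∨
      (24 * (k * d) + 44) ^ 2 * expRank k d < (12 * expRank k d * (2 * d + 3) - 27) ^ 2) :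
    IsGenRank k d (expRank k d) := by
  refine genRank_win hk hs ?_
  obtain ⟨E, hE⟩ : ∃ E, E = expRank k d := ⟨_, rfl⟩
  rw [← hE] at hs h ⊢
  have hsR : (10 : ℝ) ≤ (E : ℝ) := by exact_mod_cast hs
  obtain ⟨X, hX⟩ : ∃ X, X = √(E : ℝ) := ⟨_, rfl⟩
  have h3 : 3 ≤ X := by rw [hX]; exact Real.le_sqrt_of_sq_le (by linarith)
  have hXX : X * X = E := by rw [hX]; exact Real.mul_self_sqrt (by linarith)
  rw [← hX]
  have hkd : (0 : ℝ) ≤ (k : ℝ) * d := by positivity
  have hd : (0 : ℝ) ≤ (d : ℝ) := Nat.cast_nonneg _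
  rcases h with h | h
  · have h1 : ((k : ℝ) * d) ^ 2 < (X * (d + 1)) ^ 2 := by
      have h2 : (((k * d) ^ 2 : ℕ) : ℝ) < ((E * (d + 1) ^ 2 : ℕ) : ℝ) := by exact_mod_cast h
      push_cast at h2
      calc ((k : ℝ) * d) ^ 2 < (E : ℝ) * (d + 1) ^ 2 := h2
        _ = (X * (d + 1)) ^ 2 := by rw [← hXX]; ring
    have h4 : (k : ℝ) * d < X * (d + 1) := lt_of_pow_lt_pow_left₀ 2 (by positivity) h1
    refine lt_of_le_of_lt (min_le_left _ _) ?_
    linarith
  · have hsub : 27 ≤ 12 * E * (2 * d + 3) := by nlinarith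
    have h2 : ((24 * ((k : ℝ) * d) + 44) * X) ^ 2 < (12 * (E : ℝ) * (2 * d + 3) - 27) ^ 2 := by
      have h5 : (((24 * (k * d) + 44) ^ 2 * E : ℕ) : ℝ) <
          (((12 * E * (2 * d + 3) - 27) ^ 2 : ℕ) : ℝ) := by exact_mod_cast h
      rw [Nat.cast_pow, Nat.cast_sub hsub] at h5
      push_cast at h5
      calc ((24 * ((k : ℝ) * d) + 44) * X) ^ 2 = (24 * ((k : ℝ) * d) + 44) ^ 2 * (X * X) := by ring
        _ = (24 * ((k : ℝ) * d) + 44) ^ 2 * E := by rw [hXX]
        _ < _ := h5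
    have h6 : (0 : ℝ) ≤ 12 * (E : ℝ) * (2 * d + 3) - 27 := by nlinarith
    have h7 : (24 * ((k : ℝ) * d) + 44) * X < 12 * (E : ℝ) * (2 * d + 3) - 27 :=
      lt_of_pow_lt_pow_left₀ 2 h6 h2
    refine lt_of_le_of_lt (min_le_right _ _) ?_
    have hX0 : 0 < X := by linarith
    have e : 2 / 3 + 9 / (4 * X) = (8 * X + 27) / (12 * X) := by
      field_simp
      ring
    rw [e, div_lt_iff₀ (by positivity)]
    have e2 : (X * (2 * d + 3) - (2 * ((k : ℝ) * d) + 3)) * (12 * X) =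
        12 * (X * X) * (2 * d + 3) - (24 * ((k : ℝ) * d) + 36) * X := by ring
    rw [e2, hXX]
    linarith

/-- the parameter count without binomial coefficients -/
def er (k d : ℕ) : ℕ :=
  ((k * d + 2) * (k * d + 1) / 2 + (d + 2) * (d + 1) / 2 - 1) / ((d + 2) * (d + 1) / 2)

lemma expRank_eq (k d : ℕ) : expRank k d = er k d := by
  unfold expRank er
  rw [Nat.choose_two_right, Nat.choose_two_right]
  rfl

/-- the criterion -/
def ok (k d : ℕ) : Bool :=
  (10 ≤ er k d) &&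
    ((36 * ((d + 2) * (d + 1)) < (k * d + 2) * (k * d + 1)) ||
     ((k * d) ^ 2 < er k d * (d + 1) ^ 2) ||
     ((24 * (k * d) + 44) ^ 2 * er k d < (12 * er k d * (2 * d + 3) - 27) ^ 2))

/-- the pairs not covered -/
def exc : List (ℕ × ℕ) :=
  [(4, 2), (4, 5), (4, 15), (4, 31), (4, 32), (4, 33), (5, 2), (5, 3), (5, 4), (5, 5), (5, 6),
   (5, 7), (5, 9), (5, 12), (5, 17), (5, 26), (5, 27), (5, 53), (5, 54), (5, 55), (5, 56), (5, 57),
   (6, 2), (6, 3), (6, 4), (6, 5), (6, 9), (6, 10), (6, 12), (6, 15), (6, 19), (6, 20), (6, 26),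
   (6, 27), (6, 40), (6, 41), (6, 42), (6, 82), (6, 83), (6, 84), (6, 85), (6, 86), (6, 87), (7, 2),
   (7, 3), (7, 4), (7, 5), (7, 6), (7, 7), (8, 2), (8, 3), (9, 2)]

lemma exc_length : exc.length = 52 := by decide

/-- the finite check -/
def chk : Bool :=
  (List.range 10).all fun k => (List.range 243).all fun d =>
    (k < 4) || (d < 2) || exc.contains (k, d) || ok k d

lemma chk_true : chk = true := by decide +kernel

lemma ok_small {k d : ℕ} (hk : k < 10) (hk4 : 4 ≤ k) (hd : d < 243) (hd2 : 2 ≤ d)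
    (h : (k, d) ∉ exc) : ok k d = true := by
  have h1 := chk_true
  unfold chk at h1
  rw [List.all_eq_true] at h1
  have h2 := h1 k (List.mem_range.2 hk)
  rw [List.all_eq_true] at h2
  have h3 := h2 d (List.mem_range.2 hd)
  have e1 : (decide (k < 4)) = false := decide_eq_false (by omega)
  have e2 : (decide (d < 2)) = false := decide_eq_false (by omega)
  have e3 : exc.contains (k, d) = false := by
    rw [Bool.eq_false_iff]
    intro hc
    exact h (List.contains_iff_mem.1 hc)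
  rw [e1, e2, e3] at h3
  simpa using h3

lemma genRank_of_ok {k d : ℕ} (hk : 1 ≤ k) (h : ok k d = true) :
    IsGenRank k d (expRank k d) := by
  unfold ok at h
  rw [← expRank_eq, Bool.and_eq_true, Bool.or_eq_true, Bool.or_eq_true, decide_eq_true_eq,
    decide_eq_true_eq, decide_eq_true_eq, decide_eq_true_eq] at h
  obtain ⟨h1, (h2 | h2) | h2⟩ := h
  · refine genRank_37 hk ?_
    have e1 := two_choose d
    have e2 := two_choose (k * d)
    omega
  · exact genRank_nat hk h1 (Or.inl h2)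
  · exact genRank_nat hk h1 (Or.inr h2)

/-- for `d ≥ 3 k ^ 2` the expected value is `k ^ 2` -/
lemma expRank_large {k d : ℕ} (hk : 1 ≤ k) (hd : 3 * k ^ 2 ≤ d) : expRank k d = k ^ 2 := by
  obtain ⟨h1, h2⟩ := expRank_spec k d
  obtain ⟨E, hE⟩ : ∃ E, E = expRank k d := ⟨_, rfl⟩
  rw [← hE] at h1 h2 ⊢
  have e1 := two_choose d
  have e2 := two_choose (k * d)
  obtain ⟨M, hM⟩ : ∃ M, M = (d + 2).choose 2 := ⟨_, rfl⟩
  obtain ⟨N, hN⟩ : ∃ N, N = (k * d + 2).choose 2 := ⟨_, rfl⟩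
  rw [← hM] at h1 h2 e1
  rw [← hN] at h1 h2 e2
  have hkk : k ≤ k ^ 2 := by nlinarith
  have hk1 : 1 ≤ k ^ 2 := by omega
  have hkd : k * d ≤ k ^ 2 * d := Nat.mul_le_mul_right _ hkk
  have a1 : 2 * N = k ^ 2 * d ^ 2 + 3 * (k * d) + 2 := by rw [e2]; ring
  have a2 : 2 * (k ^ 2 * M) = k ^ 2 * d ^ 2 + 3 * (k ^ 2 * d) + 2 * k ^ 2 := by
    calc 2 * (k ^ 2 * M) = k ^ 2 * (2 * M) := by ring
      _ = k ^ 2 * d ^ 2 + 3 * (k ^ 2 * d) + 2 * k ^ 2 := by rw [e1]; ring
  have a3 : 2 * M = d ^ 2 + 3 * d + 2 := by rw [e1]; ring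
  have h3 : N ≤ k ^ 2 * M := by linarith
  have h4 : k ^ 2 * M < N + M := by
    have hd2 : 3 * (k ^ 2 * d) ≤ d ^ 2 := by
      calc 3 * (k ^ 2 * d) = 3 * k ^ 2 * d := by ring
        _ ≤ d * d := Nat.mul_le_mul_right _ hd
        _ = d ^ 2 := by ring
    have hkd0 : 0 ≤ k * d := Nat.zero_le _
    have hk0 : 0 ≤ k ^ 2 := Nat.zero_le _
    linarith
  have hM0 : 0 < M := by rw [hM]; exact Nat.choose_pos (by omega)
  have h5 : k ^ 2 ≤ E := by
    by_contra hcon
    rw [not_le] at hcon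
    have h6 : (E + 1) * M ≤ k ^ 2 * M := Nat.mul_le_mul_right _ hcon
    nlinarith
  have h6 : E ≤ k ^ 2 := by
    by_contra hcon
    rw [not_le] at hcon
    have h7 : k ^ 2 * M ≤ (E - 1) * M := Nat.mul_le_mul_right _ (by omega)
    omega
  omega

/-- **all `k ≥ 4`, `d ≥ 2` but `52` pairs** -/
theorem genRank_all {k d : ℕ} (hk : 4 ≤ k) (hd : 2 ≤ d) (h : (k, d) ∉ exc) :
    IsGenRank k d (expRank k d) := by
  rcases Nat.lt_or_ge k 10 with hlt | hge
  · rcases Nat.lt_or_ge d 243 with hd' | hd'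
    · exact genRank_of_ok (by omega) (ok_small hlt hk hd' hd h)
    · have h1 : 3 * k ^ 2 ≤ d := by nlinarith
      have h2 := expRank_large (k := k) (d := d) (by omega) h1
      refine genRank_nat (by omega) (by rw [h2]; nlinarith) (Or.inl ?_)
      rw [h2, mul_pow]
      exact Nat.mul_lt_mul_of_pos_left (Nat.pow_lt_pow_left (by omega) (by omega)) (by positivity)
  · exact genRank_37 (by omega) (cond_ten hge hd)

end Pool.Agent.TH434.FR
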